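import Pool.Agent.H20.MT.Stmts

/-! Module CNT of project MTA. -/

set_option autoImplicit false

namespace MTA
open Finset

theorem CNT : S_CNT := by
  classical
  intro P n Q0 hP hQ0
  have hpos : ∀ D : Cfg P n, 1 ≤ qq D := by
    intro D
    unfold qq
    apply Nat.one_le_iff_ne_zero.2
    rw [Finset.prod_ne_zero_iff]
    intro p _
    split_ifs
    · exact (hP p p.2).1.ne_zero
    · exact one_ne_zero
  have hiff : ∀ (D : Cfg P n) (p : ↥P), (p : ℕ) ∣ qq D ↔ (D p).isSome := by
    intro D p
    have hp := (hP p p.2).1
    constructor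
    · intro h
      unfold qq at h
      obtain ⟨p', _, h'⟩ := (Prime.dvd_finsetProd_iff hp.prime _).1 h
      split_ifs at h' with hs
      · have he : (p : ℕ) = p' := (Nat.prime_dvd_prime_iff_eq hp (hP p' p'.2).1).1 h'
        have he2 : p = p' := Subtype.ext he
        rw [he2]
        exact hs
      · exact absurd (Nat.dvd_one.1 h') hp.one_lt.ne'
    · intro h
      unfold qq
      have h2 := Finset.dvd_prod_of_mem (fun p : ↥P => if (D p).isSome then (p : ℕ) else 1)
        (Finset.mem_univ p)
      simp only [h, if_true] at h2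
      exact h2
  have hfib : ∀ q : ℕ, (univ.filter (fun D : Cfg P n => qq D = q)).card ≤ q := by
    intro q
    rcases (univ.filter (fun D : Cfg P n => qq D = q)).eq_empty_or_nonempty with h | ⟨D0, hD0⟩
    · rw [h]
      simp
    · rw [mem_filter] at hD0
      have hq := hD0.2
      let t : ↥P → Finset (Option (Fin (n + 1))) := fun p =>
        if (p : ℕ) ∣ q then univ.map Function.Embedding.some else {none}
      have hsub : univ.filter (fun D : Cfg P n => qq D = q) ⊆ Fintype.piFinset t := by
        intro D hD
        rw [mem_filter] at hD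
        rw [Fintype.mem_piFinset]
        intro p
        have h1 := hiff D p
        rw [hD.2] at h1
        simp only [t]
        split_ifs with h2
        · obtain ⟨k, hk⟩ := Option.isSome_iff_exists.1 (h1.1 h2)
          rw [hk]
          simp
        · have h3 : D p = none := by
            rw [← Option.not_isSome_iff_eq_none]
            exact fun h4 => h2 (h1.2 h4)
          rw [h3]
          simp
      refine (card_le_card hsub).trans ?_
      rw [Fintype.card_piFinset]
      calc ∏ p, (t p).card ≤ ∏ p : ↥P, (if (D0 p).isSome then (p : ℕ) else 1) := by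
            apply Finset.prod_le_prod' 
            intro p _
            have h1 := hiff D0 p
            rw [hq] at h1
            simp only [t]
            by_cases h2 : (p : ℕ) ∣ q
            · rw [if_pos h2, if_pos (h1.1 h2), card_map, card_univ, Fintype.card_fin]
              exact (hP p p.2).2
            · rw [if_neg h2, if_neg (fun h3 => h2 (h1.2 h3))]
              simp
        _ = q := hq
  have hmain : (univ.filter (fun D : Cfg P n => (qq D : ℝ) ≤ Q0)).card ≤ ⌊Q0⌋₊ * (Icc 1 ⌊Q0⌋₊).card := by
    apply card_le_mul_card_image_of_maps_to (f := fun D : Cfg P n => qq D)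
    · intro D hD
      rw [mem_filter] at hD
      rw [mem_Icc]
      exact ⟨hpos D, Nat.le_floor hD.2⟩
    · intro q hq
      rw [mem_Icc] at hq
      refine (card_le_card ?_).trans ((hfib q).trans hq.2)
      intro D hD
      rw [mem_filter] at hD
      rw [mem_filter]
      exact ⟨mem_univ _, hD.2⟩
  have h3 : ((univ.filter (fun D : Cfg P n => (qq D : ℝ) ≤ Q0)).card : ℝ) ≤
      ((⌊Q0⌋₊ * (Icc 1 ⌊Q0⌋₊).card : ℕ) : ℝ) := by exact_mod_cast hmain
  refine h3.trans ?_
  rw [Nat.card_Icc]
  simp only [Nat.add_sub_cancel]
  push_cast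
  have h4 : ((⌊Q0⌋₊ : ℕ) : ℝ) ≤ Q0 := Nat.floor_le (by linarith)
  nlinarith [Nat.cast_nonneg (α := ℝ) ⌊Q0⌋₊]

end MTA
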