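import Pool.Agent.H20.MT.Stmts

/-! Module DIV of project MTA. -/

set_option autoImplicit false

namespace MTA
open Finset

theorem DIV : S_DIV := by
  intro ε hε
  obtain ⟨N, hN⟩ : ∃ N : ℕ, (2 : ℝ) ^ (1 / ε) ≤ N := exists_nat_ge _
  have hbig : ∀ p : ℕ, N ≤ p → (2 : ℝ) ≤ (p : ℝ) ^ ε := by
    intro p hp
    have h1 : (2 : ℝ) ^ (1 / ε) ≤ (p : ℝ) := hN.trans (by exact_mod_cast hp)
    have h2 := Real.rpow_le_rpow (by positivity) h1 hε.le
    rw [← Real.rpow_mul (by norm_num), one_div, inv_mul_cancel₀ hε.ne', Real.rpow_one] at h2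
    exact h2
  refine ⟨2 ^ N, by positivity, ?_⟩
  intro m hm
  have h1 : ∀ p ∈ m.primeFactors, (2 : ℝ) ≤ (if p < N then 2 else 1) * (p : ℝ) ^ ε := by
    intro p hp
    have hp1 : (1 : ℝ) ≤ (p : ℝ) := by
      have := (Nat.prime_of_mem_primeFactors hp).one_le
      exact_mod_cast this
    split_ifs with h
    · have := Real.one_le_rpow hp1 hε.le
      linarith
    · rw [one_mul]
      exact hbig p (by omega)
  have h2 : (2 : ℝ) ^ m.primeFactors.card ≤
      ∏ p ∈ m.primeFactors, ((if p < N then (2 : ℝ) else 1) * (p : ℝ) ^ ε) := by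
    rw [← Finset.prod_const]
    exact Finset.prod_le_prod (fun _ _ => by norm_num) h1
  rw [Finset.prod_mul_distrib, Real.finsetProd_rpow _ _ (fun p _ => by positivity)] at h2
  refine h2.trans (mul_le_mul ?_ ?_ (by positivity) (by positivity))
  · rw [Finset.prod_ite, Finset.prod_const, Finset.prod_const_one, mul_one]
    apply pow_le_pow_right₀ (by norm_num)
    calc _ ≤ (Finset.range N).card := Finset.card_le_card (by
          intro p hp
          rw [Finset.mem_filter] at hp
          exact Finset.mem_range.2 hp.2)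
      _ = N := Finset.card_range N
  · apply Real.rpow_le_rpow (Finset.prod_nonneg fun p _ => by positivity) _ hε.le
    have h3 : ∏ p ∈ m.primeFactors, p ≤ m := Nat.le_of_dvd (by omega) (Nat.prod_primeFactors_dvd m)
    have h4 : ((∏ p ∈ m.primeFactors, p : ℕ) : ℝ) ≤ (m : ℝ) := Nat.cast_le.2 h3
    rw [Nat.cast_prod] at h4
    exact h4

end MTA
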